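import Pool.Agent.MP_dc2c90_ag.H20.Asm

namespace Pool.Agent.Results.MP_dc2c90_ag.LimitPreserving

open Pool.Agent.MP_dc2c90_ag.H20

/-- The Bueltel-Pappas functor commutes with directed colimits of `p`-nilpotent `W(k)`-algebras. -/
theorem result (p : ℕ) [Fact p.Prime] (k : Type) [Field k] [IsAlgClosed k] [CharP k p]
    (n : Type) [Fintype n] [DecidableEq n] (D : Data p k n) (hD : D.Good)
    (ι : Type) [Preorder ι] (R : ι → Type) [∀ i, CommRing (R i)]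
    (f : ∀ i j, i ≤ j → R i →+* R j) (A : Type) [CommRing A] (φ : ∀ i, R i →+* A)
    (hcolim : IsColim R f A φ)
    (χ : ∀ i, WittVector p k →+* R i) (χA : WittVector p k →+* A)
    (hf : ∀ i j h, (f i j h).comp (χ i) = χ j) (hφ : ∀ i, (φ i).comp (χ i) = χA)
    (hnil : ∀ i, IsNilpotent (p : R i)) :
    (∀ ξ : D.Obj χA, ∃ (i : ι) (η : D.Obj (χ i)), D.IsoOver (RingHom.id A) (φ i) ξ η) ∧
    (∀ (i : ι) (ξ η : D.Obj (χ i)), D.IsoOver (φ i) (φ i) ξ η →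
      ∃ (j : ι) (hij : i ≤ j), D.IsoOver (f i j hij) (f i j hij) ξ η) :=
  ⟨fin_surj (rIso hD) hD.sA1a hD.sA1b hD.sCoreS ⟨hcolim, hf, hφ, hnil⟩,
    fin_inj hD.sCoreI ⟨hcolim, hf, hφ, hnil⟩⟩

end Pool.Agent.Results.MP_dc2c90_ag.LimitPreserving
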